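import Pool.Agent.Helper28.TH.StW

/-!
# Project TH, all weights, module UIp: symbols for the extended group invariant under the scaling by `p`

The group of all `γ` with `χ∘γ ≈ χ` contains `(1 1; 0 1)`, `(1 0; 2 1)` and `W = (0 -1; 2 0)`; twice the constant of `W` is zero, so `2 χ` is invariant
(without constants) under `(1 1; 0 1)` and `W`, hence constant by the Euclidean algorithm.
-/

set_option autoImplicit false

open Pool.Agent.Helper14.CV

namespace Pool.Agent.Helper94.THW

open Pool.Agent.Helper28.TH Pool.Agent.Helper28.WK Pool.Agent.Helper93.TLH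
open Pool.Agent.Helper4.TL (OkE)

private theorem inv_inv {R : Type} [AddCommGroup R] {χ : ℤ → ℤ → R} {a b c d : ℤ}
    (hd : a * d - b * c = 1) (h : EqC (act a b c d χ) χ) : EqC (act d (-b) (-c) a χ) χ := by
  have hd' : d * a - -b * -c = 1 := by linarith
  have h1 : EqC (act d (-b) (-c) a (act a b c d χ)) (act d (-b) (-c) a χ) :=
    h.act (by rw [hd']; exact one_ne_zero)
  have h2 : act d (-b) (-c) a (act a b c d χ) = χ := by
    rw [act_act]
    have e1 : a * d + b * -c = 1 := by linarith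
    have e2 : a * -b + b * a = 0 := by ring
    have e3 : c * d + d * -c = 0 := by ring
    have e4 : c * -b + d * a = 1 := by linarith
    rw [e1, e2, e3, e4, act_one]
  rw [h2] at h1
  exact h1.symm

private theorem up {R : Type} [AddCommGroup R] {χ : ℤ → ℤ → R}
    (hT : EqC (act 1 1 0 1 χ) χ) (k : ℤ) : EqC (act 1 k 0 1 χ) χ := by
  have hT' : EqC (act 1 (-1) 0 1 χ) χ := by
    have := inv_inv (by norm_num) hT
    simpa using this
  induction k using Int.induction_on with
  | zero => rw [act_one]; exact EqC.refl _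
  | succ i ih =>
    have e : act 1 ((i : ℤ) + 1) 0 1 χ = act 1 1 0 1 (act 1 (i : ℤ) 0 1 χ) := by
      rw [act_act]
      congr 1 <;> ring
    rw [e]
    exact (ih.act (by norm_num)).trans hT
  | pred i ih =>
    have e : act 1 (-(i : ℤ) - 1) 0 1 χ = act 1 (-1) 0 1 (act 1 (-(i : ℤ)) 0 1 χ) := by
      rw [act_act]
      congr 1 <;> ring
    rw [e]
    exact (ih.act (by norm_num)).trans hT'

private theorem lo {R : Type} [AddCommGroup R] {χ : ℤ → ℤ → R}
    (hL : EqC (act 1 0 2 1 χ) χ) (k : ℤ) : EqC (act 1 0 (2 * k) 1 χ) χ := by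
  have hL' : EqC (act 1 0 (-2) 1 χ) χ := by
    have := inv_inv (by norm_num) hL
    simpa using this
  induction k using Int.induction_on with
  | zero =>
    rw [mul_zero, act_one]; exact EqC.refl _
  | succ i ih =>
    have e : act 1 0 (2 * ((i : ℤ) + 1)) 1 χ = act 1 0 2 1 (act 1 0 (2 * (i : ℤ)) 1 χ) := by
      rw [act_act]
      congr 1 <;> ring
    rw [e]
    exact (ih.act (by norm_num)).trans hL
  | pred i ih =>
    have e : act 1 0 (2 * (-(i : ℤ) - 1)) 1 χ = act 1 0 (-2) 1 (act 1 0 (2 * -(i : ℤ)) 1 χ) := by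
      rw [act_act]
      congr 1 <;> ring
    rw [e]
    exact (ih.act (by norm_num)).trans hL'

/-- The Euclidean algorithm for `(1 1; 0 1)` and `W = (0 -1; 2 0)`. -/
private theorem euclid {R : Type} {G : ℤ → ℤ → R} (hG : Homog G)
    (hT : ∀ x y : ℤ, (x ≠ 0 ∨ y ≠ 0) → G (x + y) y = G x y)
    (hW : ∀ x y : ℤ, (x ≠ 0 ∨ y ≠ 0) → G (-y) (2 * x) = G x y) :
    ∀ (n : ℕ) (x y : ℤ), y.natAbs = n → (x ≠ 0 ∨ y ≠ 0) → G x y = G 1 0 := by
  have hTk : ∀ (k x y : ℤ), y ≠ 0 → G (x + k * y) y = G x y := by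
    intro k
    induction k using Int.induction_on with
    | zero => intro x y _; simp
    | succ i ih =>
      intro x y hy
      have h := hT (x + i * y) y (Or.inr hy)
      rw [ih x y hy] at h
      rw [← h]
      congr 1
      ring
    | pred i ih =>
      intro x y hy
      have h := hT (x + (-(i : ℤ) - 1) * y) y (Or.inr hy)
      rw [← h, ← ih x y hy]
      congr 1
      ring
  have h01 : G 0 1 = G 1 0 := by
    have h := hW 0 1 (Or.inr one_ne_zero)
    rw [← h]
    have h' := hG (-1) 1 0 (by norm_num) (Or.inl one_ne_zero)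
    simpa using h'
  have h12 : G 1 2 = G 1 0 := by
    have h := hW 1 2 (Or.inl one_ne_zero)
    have h' := hG 2 (-1) 1 (by norm_num) (Or.inr one_ne_zero)
    have h'' := hT (-1) 1 (Or.inr one_ne_zero)
    norm_num at h h' h''
    rw [← h, h', ← h'', h01]
  have h12' : G 1 (-2) = G 1 0 := by
    have h := hW 1 (-2) (Or.inl one_ne_zero)
    have h' := hG 2 1 1 (by norm_num) (Or.inr one_ne_zero)
    have h'' := hT 0 1 (Or.inr one_ne_zero)
    norm_num at h h' h''
    rw [← h, h', h'', h01]
  intro n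
  induction n using Nat.strong_induction_on with
  | _ n ih =>
    intro x y hn hxy
    by_cases hy : y = 0
    · subst hy
      have hx : x ≠ 0 := by
        rcases hxy with h | h
        · exact h
        · exact absurd rfl h
      have h := hG x 1 0 hx (Or.inl one_ne_zero)
      simpa using h
    · -- reduce `x` modulo `y`
      obtain ⟨k, hk⟩ : ∃ k : ℤ, 2 * (x + k * y).natAbs ≤ y.natAbs := by
        have h1 := Int.emod_add_mul_ediv x y
        have h2 := Int.emod_nonneg x hy
        have h3 := Int.emod_lt_abs x hy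
        rw [Int.abs_eq_natAbs] at h3
        set q := x / y with hq
        set r := x % y with hr
        by_cases h4 : 2 * r ≤ (y.natAbs : ℤ)
        · refine ⟨-q, ?_⟩
          have e : x + -q * y = r := by linarith
          rw [e]
          omega
        · rcases lt_or_gt_of_ne hy with hneg | hpos
          · refine ⟨-q + 1, ?_⟩
            have e : x + (-q + 1) * y = r + y := by linarith
            rw [e]
            omega
          · refine ⟨-q - 1, ?_⟩
            have e : x + (-q - 1) * y = r - y := by linarith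
            rw [e]
            omega
      rw [← hTk k x y hy]
      set x' := x + k * y with hx'
      rcases lt_or_eq_of_le hk with hlt | heq
      · rw [← hW x' y (Or.inr hy)]
        exact ih (2 * x').natAbs (by omega) (-y) (2 * x') rfl (Or.inl (neg_ne_zero.2 hy))
      · have hx0 : x' ≠ 0 := by
          intro h
          rw [h] at heq
          omega
        have hcase : y = x' * 2 ∨ y = x' * (-2) := by omega
        rcases hcase with h | h
        · rw [h]
          have h' := hG x' 1 2 hx0 (Or.inl one_ne_zero)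
          rw [mul_one] at h'
          rw [h', h12]
        · rw [h]
          have h' := hG x' 1 (-2) hx0 (Or.inl one_ne_zero)
          rw [mul_one] at h'
          rw [h', h12']

theorem hUIp : SHUIp := by
  intro p hp hp2 R _ r s χ hχ hu
  have hp0 : (p : ℤ) ≠ 0 := by
    have : p ≠ 0 := by omega
    exact_mod_cast this
  have hodd : ∀ k : ℕ, ((p : ℤ) ^ k) % 2 = 1 := by
    intro k
    have h1 : Odd p := Nat.odd_iff.2 (by omega)
    have h2 : Odd ((p : ℤ) ^ k) := Odd.pow (by exact_mod_cast h1)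
    exact Int.odd_iff.1 h2
  have detu : (p : ℤ) * 1 - 0 * 0 ≠ 0 := by simpa using hp0
  have st1 : ∀ b : ℤ, EqC (act 1 (p * b) 0 1 χ) χ → EqC (act 1 b 0 1 χ) χ := by
    intro b hb
    have e1 : act 1 b 0 1 (act p 0 0 1 χ) = act p 0 0 1 (act 1 (p * b) 0 1 χ) := by
      rw [act_act, act_act]
      congr 1 <;> ring
    have h1 : EqC (act 1 b 0 1 χ) (act 1 b 0 1 (act p 0 0 1 χ)) := hu.symm.act (by norm_num)
    rw [e1] at h1
    exact h1.trans ((hb.act detu).trans hu)
  have st2 : ∀ c : ℤ, EqC (act 1 0 (p * c) 1 χ) χ → EqC (act 1 0 c 1 χ) χ := by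
    intro c hc
    have e1 : act 1 0 (p * c) 1 (act p 0 0 1 χ) = act p 0 0 1 (act 1 0 c 1 χ) := by
      rw [act_act, act_act]
      congr 1 <;> ring
    have h1 : EqC (act p 0 0 1 (act 1 0 c 1 χ)) (act p 0 0 1 χ) := by
      rw [← e1]
      exact (hu.act (by norm_num)).trans (hc.trans hu.symm)
    obtain ⟨k, hk⟩ := h1
    have hF : Homog (act 1 0 c 1 χ) := hχ.1.act (by norm_num)
    refine ⟨k, fun x y hxy => ?_⟩
    have hxy' : x ≠ 0 ∨ (p : ℤ) * y ≠ 0 := by
      rcases hxy with hx | hy
      · exact Or.inl hx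
      · exact Or.inr (mul_ne_zero hp0 hy)
    have h2 := hk x (p * y) hxy'
    have e2 : act p 0 0 1 (act 1 0 c 1 χ) x (p * y) = act 1 0 c 1 χ x y := by
      rw [← hF p x y hp0 hxy]
      show act 1 0 c 1 χ (p * x + 0 * (p * y)) (0 * x + 1 * (p * y)) = _
      congr 1 <;> ring
    have e3 : act p 0 0 1 χ x (p * y) = χ x y := by
      rw [← hχ.1 p x y hp0 hxy]
      show χ (p * x + 0 * (p * y)) (0 * x + 1 * (p * y)) = _
      congr 1 <;> ring
    rw [e2, e3] at h2
    exact h2
  have hT : EqC (act 1 1 0 1 χ) χ := by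
    have key : ∀ k : ℕ, EqC (act 1 ((p : ℤ) ^ k) 0 1 χ) χ → EqC (act 1 1 0 1 χ) χ := by
      intro k
      induction k with
      | zero => intro h; simpa using h
      | succ k ih =>
        intro h
        rw [pow_succ'] at h
        exact ih (st1 _ h)
    exact key r (hχ.2 1 ((p : ℤ) ^ r) 0 1 (Or.inl ⟨by ring, dvd_zero _⟩) (dvd_refl _)
      (dvd_zero _))
  have hL : EqC (act 1 0 2 1 χ) χ := by
    have key : ∀ k : ℕ, EqC (act 1 0 ((p : ℤ) ^ k * 2) 1 χ) χ → EqC (act 1 0 2 1 χ) χ := by
      intro k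
      induction k with
      | zero => intro h; simpa using h
      | succ k ih =>
        intro h
        rw [pow_succ', mul_assoc] at h
        exact ih (st2 _ h)
    exact key s (hχ.2 1 0 ((p : ℤ) ^ s * 2) 1 (Or.inl ⟨by ring, Dvd.intro_left _ rfl⟩)
      (dvd_zero _) (Dvd.intro _ rfl))
  -- the matrix `W`
  have hW : EqC (act 0 (-1) 2 0 χ) χ := by
    obtain ⟨k, hk⟩ : ∃ k : ℤ, 1 + (p : ℤ) ^ r = 2 * k := by
      have := hodd r
      exact ⟨(1 + (p : ℤ) ^ r) / 2, by omega⟩
    obtain ⟨j, hj⟩ : ∃ j : ℤ, 1 - (p : ℤ) ^ s = 2 * j := by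
      have := hodd s
      exact ⟨(1 - (p : ℤ) ^ s) / 2, by omega⟩
    have h0 : EqC (act (1 + (p : ℤ) ^ r * (p : ℤ) ^ s) ((p : ℤ) ^ r) (2 * (p : ℤ) ^ s) 2 χ) χ := by
      apply hχ.2
      · refine Or.inr ⟨by ring, ?_, Dvd.intro _ rfl, dvd_refl _⟩
        have := hodd (r + s)
        rw [pow_add] at this
        omega
      · exact dvd_refl _
      · exact Dvd.intro_left _ rfl
    have e : act 0 (-1) 2 0 χ = act 1 (-1) 0 1 (act 1 0 (2 * j) 1
        (act (1 + (p : ℤ) ^ r * (p : ℤ) ^ s) ((p : ℤ) ^ r) (2 * (p : ℤ) ^ s) 2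
          (act 1 (-k) 0 1 χ))) := by
      rw [act_act, act_act, act_act]
      congr 1
      · rw [← hj]; linear_combination -hk
      · rw [← hj]; ring
      · rw [← hj]; ring
      · rw [← hj]; ring
    rw [e]
    have d0 : (1 + (p : ℤ) ^ r * (p : ℤ) ^ s) * 2 - (p : ℤ) ^ r * (2 * (p : ℤ) ^ s) ≠ 0 := by
      have : (1 + (p : ℤ) ^ r * (p : ℤ) ^ s) * 2 - (p : ℤ) ^ r * (2 * (p : ℤ) ^ s) = 2 := by ring
      rw [this]
      norm_num
    have h1 := ((up hT (-k)).act d0).trans h0
    have h2 := (h1.act (a := 1) (b := 0) (c := 2 * j) (d := 1) (by norm_num)).trans (lo hL j)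
    exact (h2.act (a := 1) (b := -1) (c := 0) (d := 1) (by norm_num)).trans (up hT (-1))
  -- constants
  obtain ⟨ct, hct⟩ := hT
  have hct0 : ct = 0 := by
    have h := hct 1 0 (Or.inl one_ne_zero)
    simpa [act] using h
  obtain ⟨w, hw⟩ := hW
  have h2w : w + w = 0 := by
    have h1 := hw 1 0 (Or.inl one_ne_zero)
    have h2 := hw 0 2 (Or.inr two_ne_zero)
    have h3 := hχ.1 (-2) 1 0 (by norm_num) (Or.inl one_ne_zero)
    simp only [act] at h1 h2
    norm_num at h1 h2 h3
    rw [h3, h1, add_assoc] at h2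
    exact (left_eq_add.1 h2)
  refine ⟨(2 : ℤ) • χ 1 0, fun x y hxy => ?_⟩
  have key := euclid (G := (2 : ℤ) • χ) (hχ.1.smul (2 : ℤ)) ?_ ?_ y.natAbs x y rfl hxy
  · rw [key]; simp
  · intro x y hxy
    have h := hct x y hxy
    rw [hct0, add_zero] at h
    simp only [act, one_mul, zero_mul, zero_add] at h
    show (2 : ℤ) • χ (x + y) y = (2 : ℤ) • χ x y
    rw [h]
  · intro x y hxy
    have h := hw x y hxy
    simp only [act, zero_mul, zero_add, add_zero, neg_mul, one_mul] at h
    show (2 : ℤ) • χ (-y) (2 * x) = (2 : ℤ) • χ x y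
    rw [h, smul_add, two_smul ℤ w, h2w, add_zero]

end Pool.Agent.Helper94.THW
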